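import Pool.Agent.Y920.ETC.Stm2

set_option autoImplicit false

/-! Job ET-GL of helper920: the robust friendship lemma. -/

namespace Pool.Agent.Y43.ET

open Finset Pool.Agent.Y920.ETC

section

variable {V : Type} [Fintype V] [DecidableEq V] (Gr : SimpleGraph V) [DecidableRel Gr.Adj]

theorem cn_self (u : V) : cn Gr u u = Gr.degree u := by
  unfold cn
  rw [inter_self]
  rfl

theorem cn_pos (hc : ∀ u v : V, u ≠ v → ∃ w, Gr.Adj u w ∧ Gr.Adj v w) {u v : V} (h : u ≠ v) :
    1 ≤ cn Gr u v := by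
  obtain ⟨w, h1, h2⟩ := hc u v h
  exact card_pos.2 ⟨w, by
    rw [mem_inter, SimpleGraph.mem_neighborFinset, SimpleGraph.mem_neighborFinset]
    exact ⟨h1, h2⟩⟩

theorem two_le_cn {u v a b : V} (hab : a ≠ b) (h1 : Gr.Adj u a) (h2 : Gr.Adj v a)
    (h3 : Gr.Adj u b) (h4 : Gr.Adj v b) : 2 ≤ cn Gr u v := by
  have h : ({a, b} : Finset V) ⊆ Gr.neighborFinset u ∩ Gr.neighborFinset v := by
    intro x hx
    rw [mem_insert, mem_singleton] at hx
    rw [mem_inter, SimpleGraph.mem_neighborFinset, SimpleGraph.mem_neighborFinset]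
    rcases hx with rfl | rfl
    · exact ⟨h1, h2⟩
    · exact ⟨h3, h4⟩
  calc 2 = #({a, b} : Finset V) := (card_pair hab).symm
    _ ≤ _ := card_le_card h

theorem bu_pos {u v : V} (h : u ≠ v) (h2 : 2 ≤ cn Gr u v) : 1 ≤ bu Gr u := by
  have h3 : cn Gr u v - 1 ≤ bu Gr u :=
    single_le_sum (f := fun v => cn Gr u v - 1) (fun _ _ => Nat.zero_le _)
      (mem_filter.2 ⟨mem_univ v, h.symm⟩)
  omega

theorem uniq {u v a b : V} (hu : bu Gr u = 0) (huv : u ≠ v) (h1 : Gr.Adj u a) (h2 : Gr.Adj v a)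
    (h3 : Gr.Adj u b) (h4 : Gr.Adj v b) : a = b := by
  by_contra hab
  have := bu_pos Gr huv (two_le_cn Gr hab h1 h2 h3 h4)
  omega

theorem deg_sum (hc : ∀ u v : V, u ≠ v → ∃ w, Gr.Adj u w ∧ Gr.Adj v w) (u : V) :
    ∑ v ∈ Gr.neighborFinset u, Gr.degree v =
      Gr.degree u + (Fintype.card V - 1) + bu Gr u := by
  have h1 : ∀ v, Gr.degree v = ∑ w, if Gr.Adj v w then 1 else 0 := by
    intro v
    rw [← card_filter, ← SimpleGraph.card_neighborFinset_eq_degree]
    congr 1
    ext w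
    simp
  have h2 : ∀ w, cn Gr u w = ∑ v ∈ Gr.neighborFinset u, if Gr.Adj v w then 1 else 0 := by
    intro w
    rw [← card_filter]
    unfold cn
    congr 1
    ext v
    rw [mem_inter, mem_filter, SimpleGraph.mem_neighborFinset, SimpleGraph.mem_neighborFinset,
      Gr.adj_comm w v]
  have h3 : ∑ v ∈ Gr.neighborFinset u, Gr.degree v = ∑ w, cn Gr u w := by
    rw [sum_congr rfl fun v _ => h1 v, sum_comm]
    exact sum_congr rfl fun w _ => (h2 w).symm
  have h4 : ∑ w, cn Gr u w = cn Gr u u + ∑ w ∈ univ.filter (· ≠ u), cn Gr u w := by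
    rw [← sum_filter_add_sum_filter_not univ (fun w => w = u)]
    congr 1
    rw [filter_eq' univ u, if_pos (mem_univ u), sum_singleton]
  have h5 : ∑ w ∈ univ.filter (· ≠ u), cn Gr u w = (Fintype.card V - 1) + bu Gr u := by
    have h6 : ∀ w ∈ univ.filter (· ≠ u), cn Gr u w = 1 + (cn Gr u w - 1) := by
      intro w hw
      have := cn_pos Gr hc (mem_filter.1 hw).2.symm
      omega
    rw [sum_congr rfl h6, sum_add_distrib]
    congr 1
    rw [sum_const, smul_eq_mul, mul_one, filter_ne' univ u, card_erase_of_mem (mem_univ u),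
      card_univ]
  rw [h3, h4, h5, cn_self]
  ring

theorem deg_le (hc : ∀ u v : V, u ≠ v → ∃ w, Gr.Adj u w ∧ Gr.Adj v w) {u w : V}
    (hu : bu Gr u = 0) (hn : ¬ Gr.Adj u w) : Gr.degree u ≤ Gr.degree w := by
  have h1 : ∀ v, Gr.Adj u v → ∃ w', Gr.Adj v w' ∧ Gr.Adj w w' := by
    intro v hv
    exact hc v w (fun h => hn (h ▸ hv))
  choose! g hg1 hg2 using h1
  rw [← SimpleGraph.card_neighborFinset_eq_degree, ← SimpleGraph.card_neighborFinset_eq_degree]
  apply card_le_card_of_injOn g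
  · intro v hv
    rw [mem_coe, SimpleGraph.mem_neighborFinset] at hv
    rw [mem_coe, SimpleGraph.mem_neighborFinset]
    exact hg2 v hv
  · intro v hv v' hv' he
    rw [mem_coe, SimpleGraph.mem_neighborFinset] at hv hv'
    have h2 : u ≠ g v := by
      intro h
      apply hn
      rw [h]
      exact (hg2 v hv).symm
    refine uniq Gr hu h2 hv (hg1 v hv).symm hv' ?_
    rw [he]
    exact (hg1 v' hv').symm

/-- the number of bad vertices -/
theorem bad_card (hb : 1 ≤ bt Gr) :
    4 ≤ #(univ.filter fun u => bu Gr u ≠ 0) ∧ #(univ.filter fun u => bu Gr u ≠ 0) ≤ bt Gr := by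
  constructor
  · have h1 : ∃ u, bu Gr u ≠ 0 := by
      by_contra h
      push Not at h
      unfold bt at hb
      rw [sum_congr rfl fun u _ => h u, sum_const_zero] at hb
      omega
    obtain ⟨u, hu⟩ := h1
    have h2 : ∃ v, v ≠ u ∧ 2 ≤ cn Gr u v := by
      by_contra h
      push Not at h
      apply hu
      unfold bu
      apply sum_eq_zero
      intro v hv
      have := h v (mem_filter.1 hv).2
      omega
    obtain ⟨v, hvu, hcn⟩ := h2
    obtain ⟨a, ha, b, hb', hab⟩ := one_lt_card.1 hcn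
    rw [mem_inter, SimpleGraph.mem_neighborFinset, SimpleGraph.mem_neighborFinset] at ha hb'
    have h3 : 1 ≤ bu Gr v := bu_pos Gr hvu (two_le_cn Gr hab ha.2 ha.1 hb'.2 hb'.1)
    have h4 : 1 ≤ bu Gr a :=
      bu_pos Gr hab (two_le_cn Gr hvu.symm ha.1.symm hb'.1.symm ha.2.symm hb'.2.symm)
    have h5 : 1 ≤ bu Gr b :=
      bu_pos Gr hab.symm (two_le_cn Gr hvu.symm hb'.1.symm ha.1.symm hb'.2.symm ha.2.symm)
    have h6 : ({u, v, a, b} : Finset V) ⊆ univ.filter fun u => bu Gr u ≠ 0 := by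
      intro x hx
      simp only [mem_insert, mem_singleton] at hx
      rw [mem_filter]
      refine ⟨mem_univ x, ?_⟩
      rcases hx with rfl | rfl | rfl | rfl <;> omega
    have h7 : #({u, v, a, b} : Finset V) = 4 := by
      rw [card_insert_of_notMem, card_insert_of_notMem, card_pair hab]
      · simp only [mem_insert, mem_singleton, not_or]
        exact ⟨ha.2.ne, hb'.2.ne⟩
      · simp only [mem_insert, mem_singleton, not_or]
        exact ⟨hvu.symm, ha.1.ne, hb'.1.ne⟩
    rw [← h7]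
    exact card_le_card h6
  · unfold bt
    rw [card_filter]
    apply sum_le_sum
    intro u _
    split_ifs with h
    · omega
    · omega

/-- the pairs of clean neighbours of one vertex -/
theorem pairs_le (C : Finset V) (z : V) (hC : ∀ x ∈ C, bu Gr x = 0)
    (hz : ∀ x ∈ C, Gr.Adj z x) :
    #((univ : Finset (V × V)).filter fun p => Gr.Adj p.1 p.2 ∧ p.1 ∈ C ∧ p.2 ∈ C) ≤
      Gr.degree z := by
  have h1 : #((univ : Finset (V × V)).filter fun p => Gr.Adj p.1 p.2 ∧ p.1 ∈ C ∧ p.2 ∈ C) ≤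
      #C := by
    apply card_le_card_of_injOn Prod.fst
    · intro p hp
      exact (mem_filter.1 (mem_coe.1 hp)).2.2.1
    · intro p hp q hq he
      obtain ⟨h1, h2, h3⟩ := (mem_filter.1 (mem_coe.1 hp)).2
      obtain ⟨h4, h5, h6⟩ := (mem_filter.1 (mem_coe.1 hq)).2
      apply Prod.ext he
      have h7 := hz _ h2
      refine uniq Gr (hC _ h2) h7.ne.symm h1 (hz _ h3) ?_ (hz _ h6)
      rw [he]
      exact h4
  refine h1.trans ?_
  rw [← SimpleGraph.card_neighborFinset_eq_degree]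
  apply card_le_card
  intro x hx
  rw [SimpleGraph.mem_neighborFinset]
  exact hz x hx

theorem fst_pairs (S : Finset V) :
    #((univ : Finset (V × V)).filter fun p => Gr.Adj p.1 p.2 ∧ p.1 ∈ S) ≤
      ∑ x ∈ S, Gr.degree x := by
  rw [card_eq_sum_card_fiberwise (f := Prod.fst) (t := S)
    (fun p hp => (mem_filter.1 (mem_coe.1 hp)).2.2)]
  apply sum_le_sum
  intro x _
  rw [← SimpleGraph.card_neighborFinset_eq_degree]
  apply card_le_card_of_injOn Prod.snd
  · intro p hp
    obtain ⟨h1, h2⟩ := mem_filter.1 (mem_coe.1 hp)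
    rw [mem_coe, SimpleGraph.mem_neighborFinset, ← h2]
    exact (mem_filter.1 h1).2.1
  · intro p hp q hq he
    obtain ⟨_, h2⟩ := mem_filter.1 (mem_coe.1 hp)
    obtain ⟨_, h4⟩ := mem_filter.1 (mem_coe.1 hq)
    exact Prod.ext (h2.trans h4.symm) he

theorem snd_pairs (S : Finset V) :
    #((univ : Finset (V × V)).filter fun p => Gr.Adj p.1 p.2 ∧ p.2 ∈ S) ≤
      ∑ x ∈ S, Gr.degree x := by
  refine le_trans ?_ (fst_pairs Gr S)
  apply card_le_card_of_injOn Prod.swap
  · intro p hp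
    obtain ⟨_, h1, h2⟩ := mem_filter.1 (mem_coe.1 hp)
    exact mem_coe.2 (mem_filter.2 ⟨mem_univ _, h1.symm, h2⟩)
  · intro p _ q _ he
    exact Prod.swap_injective he

omit [DecidableEq V] in
theorem sum_deg_le {N : ℕ} (hN : ∀ v, Gr.degree v ≤ N) (S : Finset V) :
    ∑ x ∈ S, Gr.degree x ≤ #S * N := by
  rw [← smul_eq_mul, ← sum_const]
  exact sum_le_sum fun x _ => hN x

/-- reduction to the clean pairs -/
theorem red {N : ℕ} (hN : ∀ v, Gr.degree v ≤ N) (C : Finset V)
    (hC : ∀ x, bu Gr x = 0 → 2 < Gr.degree x → x ∈ C) :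
    #((univ : Finset (V × V)).filter fun p => Gr.Adj p.1 p.2 ∧ 2 < Gr.degree p.1 ∧
        2 < Gr.degree p.2) ≤
      2 * (#(univ.filter fun u => bu Gr u ≠ 0) * N) +
      #((univ : Finset (V × V)).filter fun p => Gr.Adj p.1 p.2 ∧ p.1 ∈ C ∧ p.2 ∈ C) := by
  have h1 : ((univ : Finset (V × V)).filter fun p => Gr.Adj p.1 p.2 ∧ 2 < Gr.degree p.1 ∧
        2 < Gr.degree p.2) ⊆
      (((univ : Finset (V × V)).filter fun p => Gr.Adj p.1 p.2 ∧
        p.1 ∈ univ.filter fun u => bu Gr u ≠ 0) ∪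
      ((univ : Finset (V × V)).filter fun p => Gr.Adj p.1 p.2 ∧
        p.2 ∈ univ.filter fun u => bu Gr u ≠ 0)) ∪
      ((univ : Finset (V × V)).filter fun p => Gr.Adj p.1 p.2 ∧ p.1 ∈ C ∧ p.2 ∈ C) := by
    intro p hp
    obtain ⟨_, h2, h3, h4⟩ := mem_filter.1 hp
    by_cases h5 : bu Gr p.1 = 0
    · by_cases h6 : bu Gr p.2 = 0
      · exact mem_union_right _ (mem_filter.2 ⟨mem_univ _, h2, hC _ h5 h3, hC _ h6 h4⟩)
      · exact mem_union_left _ (mem_union_right _ (mem_filter.2 ⟨mem_univ _, h2,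
          mem_filter.2 ⟨mem_univ _, h6⟩⟩))
    · exact mem_union_left _ (mem_union_left _ (mem_filter.2 ⟨mem_univ _, h2,
          mem_filter.2 ⟨mem_univ _, h5⟩⟩))
  have h2 := (fst_pairs Gr (univ.filter fun u => bu Gr u ≠ 0)).trans (sum_deg_le Gr hN _)
  have h3 := (snd_pairs Gr (univ.filter fun u => bu Gr u ≠ 0)).trans (sum_deg_le Gr hN _)
  have h4 := (card_le_card h1).trans ((card_union_le _ _).trans
    (Nat.add_le_add_right (card_union_le _ _) _))
  omega

theorem caseB {N : ℕ} (hN : ∀ v, Gr.degree v ≤ N)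
    (hc : ∀ u v : V, u ≠ v → ∃ w, Gr.Adj u w ∧ Gr.Adj v w) (C : Finset V)
    (hC : ∀ x ∈ C, bu Gr x = 0) (hB : ∃ x1 ∈ C, ∃ x2 ∈ C, Gr.degree x1 ≠ Gr.degree x2) :
    #((univ : Finset (V × V)).filter fun p => Gr.Adj p.1 p.2 ∧ p.1 ∈ C ∧ p.2 ∈ C) ≤
      3 * N := by
  obtain ⟨x1, hx1, x2, hx2, hd⟩ := hB
  have hadj : ∀ x ∈ C, ∀ y ∈ C, Gr.degree x ≠ Gr.degree y → Gr.Adj x y := by
    intro x hx y hy hne
    by_contra hn
    have h1 := deg_le Gr hc (hC x hx) hn
    have h2 := deg_le Gr hc (hC y hy) (fun h => hn h.symm)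
    omega
  have hx0 : ∃ x0 ∈ C, ∀ x ∈ C, x ≠ x0 → Gr.Adj x0 x := by
    by_cases h : ∃ y ∈ C, Gr.degree y = Gr.degree x1 ∧ y ≠ x1
    · obtain ⟨y, hy, hdy, hne⟩ := h
      refine ⟨x2, hx2, ?_⟩
      intro x hx hxne
      by_contra hn
      have h1 : Gr.degree x = Gr.degree x2 := by
        by_contra h2
        exact hn (hadj x2 hx2 x hx (fun h3 => h2 h3.symm))
      apply hxne
      refine uniq Gr (hC x1 hx1) hne.symm (hadj x1 hx1 x hx ?_) (hadj y hy x hx ?_)
        (hadj x1 hx1 x2 hx2 hd) (hadj y hy x2 hx2 ?_)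
      · omega
      · omega
      · omega
    · push Not at h
      refine ⟨x1, hx1, ?_⟩
      intro x hx hxne
      apply hadj x1 hx1 x hx
      intro h1
      exact hxne (h x hx h1.symm)
  obtain ⟨x0, hx0, hx0a⟩ := hx0
  have h1 : ((univ : Finset (V × V)).filter fun p => Gr.Adj p.1 p.2 ∧ p.1 ∈ C ∧ p.2 ∈ C) ⊆
      (((univ : Finset (V × V)).filter fun p => Gr.Adj p.1 p.2 ∧ p.1 ∈ ({x0} : Finset V)) ∪
      ((univ : Finset (V × V)).filter fun p => Gr.Adj p.1 p.2 ∧ p.2 ∈ ({x0} : Finset V))) ∪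
      ((univ : Finset (V × V)).filter fun p => Gr.Adj p.1 p.2 ∧ p.1 ∈ C.erase x0 ∧
        p.2 ∈ C.erase x0) := by
    intro p hp
    obtain ⟨_, h2, h3, h4⟩ := mem_filter.1 hp
    by_cases h5 : p.1 = x0
    · exact mem_union_left _ (mem_union_left _ (mem_filter.2 ⟨mem_univ _, h2,
        mem_singleton.2 h5⟩))
    · by_cases h6 : p.2 = x0
      · exact mem_union_left _ (mem_union_right _ (mem_filter.2 ⟨mem_univ _, h2,
          mem_singleton.2 h6⟩))
      · exact mem_union_right _ (mem_filter.2 ⟨mem_univ _, h2, mem_erase.2 ⟨h5, h3⟩,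
          mem_erase.2 ⟨h6, h4⟩⟩)
  have h2 := (fst_pairs Gr {x0}).trans (sum_deg_le Gr hN _)
  have h3 := (snd_pairs Gr {x0}).trans (sum_deg_le Gr hN _)
  have h5 := (pairs_le Gr (C.erase x0) x0 (fun x hx => hC x (mem_of_mem_erase hx))
    (fun x hx => hx0a x (mem_of_mem_erase hx) (ne_of_mem_erase hx))).trans (hN x0)
  have h4 := (card_le_card h1).trans ((card_union_le _ _).trans
    (Nat.add_le_add_right (card_union_le _ _) _))
  rw [card_singleton, one_mul] at h2 h3
  omega

/-- the arithmetic of the last case -/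
theorem arith {c k s w N b : ℕ} (hk : 3 ≤ k) (hs : 1 ≤ s) (h5 : c * s ≤ N * w)
    (h4 : k * k * w ≤ k * w + k * s * b + b) : c * k ≤ 2 * N * b := by
  obtain ⟨k', rfl⟩ : ∃ k', k = k' + 1 := ⟨k - 1, by omega⟩
  have hk' : 2 ≤ k' := by omega
  have h6 : (k' + 1) * k' * w ≤ (k' + 1) * s * b + b := by nlinarith
  have h7 : (c * (k' + 1)) * (s * k') ≤ (2 * N * b) * (s * k') := by
    calc (c * (k' + 1)) * (s * k') = (k' + 1) * k' * (c * s) := by ring
      _ ≤ (k' + 1) * k' * (N * w) := Nat.mul_le_mul_left _ h5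
      _ = N * ((k' + 1) * k' * w) := by ring
      _ ≤ N * ((k' + 1) * s * b + b) := Nat.mul_le_mul_left _ h6
      _ ≤ N * ((k' + 1) * s * b + s * b) :=
        Nat.mul_le_mul_left _ (Nat.add_le_add_left (Nat.le_mul_of_pos_left b hs) _)
      _ = N * b * s * (k' + 2) := by ring
      _ ≤ N * b * s * (2 * k') := Nat.mul_le_mul_left _ (by omega)
      _ = _ := by ring
  exact Nat.le_of_mul_le_mul_right h7 (by positivity)

theorem caseC2 {N : ℕ} (hN : ∀ v, Gr.degree v ≤ N)
    (hc : ∀ u v : V, u ≠ v → ∃ w, Gr.Adj u w ∧ Gr.Adj v w) (C : Finset V) (b k : ℕ)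
    (hbu : bt Gr = b) (hM : 4 ≤ #(univ.filter fun u => bu Gr u ≠ 0))
    (hMb : #(univ.filter fun u => bu Gr u ≠ 0) ≤ b)
    (hC : C = univ.filter fun x => bu Gr x = 0) (hk : 3 ≤ k)
    (hCk : ∀ x ∈ C, Gr.degree x = k) (hne : C.Nonempty) (r : V → ℕ)
    (hr : ∀ v, Gr.degree v = k * (r v + 1)) : #C * k ≤ 2 * N * b := by
  obtain ⟨x0, hx0⟩ := hne
  set M := univ.filter fun u => bu Gr u ≠ 0 with hMdef
  -- the identity (1)
  have h1 : ∀ z, k * (∑ v ∈ Gr.neighborFinset z, r v) + k * Gr.degree z =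
      Gr.degree z + (Fintype.card V - 1) + bu Gr z := by
    intro z
    rw [← deg_sum Gr hc z, sum_congr rfl fun v _ => hr v, ← mul_sum, sum_add_distrib, sum_const,
      SimpleGraph.card_neighborFinset_eq_degree, smul_eq_mul, mul_one, mul_add]
  have hk0 : 0 < k := by omega
  set s := ∑ v ∈ Gr.neighborFinset x0, r v with hs
  have hbC : ∀ x ∈ C, bu Gr x = 0 := by
    intro x hx
    rw [hC] at hx
    exact (mem_filter.1 hx).2
  have h2 : k * s + k * k = k + (Fintype.card V - 1) := by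
    have := h1 x0
    rw [hCk x0 hx0, hbC x0 hx0] at this
    omega
  have h3 : ∀ x ∈ C, ∑ v ∈ Gr.neighborFinset x, r v = s := by
    intro x hx
    have := h1 x
    rw [hCk x hx, hbC x hx] at this
    have h4 : k * (∑ v ∈ Gr.neighborFinset x, r v) = k * s := by omega
    exact Nat.eq_of_mul_eq_mul_left hk0 h4
  have h4 : ∀ z, k * k * r z ≤ k * r z + k * s + bu Gr z := by
    intro z
    have h5 := h1 z
    rw [hr z] at h5
    have h6 : k * (k * (r z + 1)) = k * k * r z + k * k := by ring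
    have h7 : k * (r z + 1) = k * r z + k := by ring
    rw [h6, h7] at h5
    omega
  have hr0 : ∀ z, bu Gr z = 0 → r z = 0 := by
    intro z hz
    have h5 : z ∈ C := by
      rw [hC]
      exact mem_filter.2 ⟨mem_univ z, hz⟩
    have h6 := hr z
    rw [hCk z h5] at h6
    have h7 : k * (r z + 1) = k * 1 := by omega
    have := Nat.eq_of_mul_eq_mul_left hk0 h7
    omega
  have hcard : #C + #M = Fintype.card V := by
    rw [hC, hMdef, card_filter_add_card_filter_not, card_univ]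
  rcases Nat.eq_zero_or_pos s with hs0 | hs0
  · by_cases hall : ∀ z, r z = 0
    · exfalso
      have h5 : M = ∅ := by
        rw [hMdef, filter_eq_empty_iff]
        intro z _
        rw [not_not]
        have h6 := h1 z
        rw [sum_congr rfl fun v _ => hall v, sum_const_zero, hr z, hall z] at h6
        rw [hs0] at h2
        simp only [mul_zero, zero_add, mul_one] at h6 h2
        omega
      rw [h5, card_empty] at hM
      omega
    · push Not at hall
      obtain ⟨z, hz⟩ := hall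
      have h5 := h4 z
      have h6 : bu Gr z ≤ b := by
        rw [← hbu]
        exact single_le_sum (f := fun u => bu Gr u) (fun _ _ => Nat.zero_le _) (mem_univ z)
      rw [hs0] at h5 h2
      have h7 : k * k ≤ k + b := by
        obtain ⟨k', rfl⟩ : ∃ k', k = k' + 1 := ⟨k - 1, by omega⟩
        have h8 : 1 ≤ r z := Nat.one_le_iff_ne_zero.2 hz
        have h9 : (k' + 1) * k' * r z ≤ b := by nlinarith
        have h10 : (k' + 1) * k' ≤ (k' + 1) * k' * r z := Nat.le_mul_of_pos_right _ h8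
        nlinarith
      have h8 : #C ≤ b := by
        rw [mul_zero, zero_add] at h2
        omega
      have h9 : k ≤ N := by
        rw [← hCk x0 hx0]
        exact hN x0
      calc #C * k ≤ b * N := Nat.mul_le_mul h8 h9
        _ ≤ 2 * N * b := by nlinarith
  · have h5 : #C * s ≤ N * ∑ v, r v := by
      calc #C * s = ∑ x ∈ C, ∑ v ∈ Gr.neighborFinset x, r v := by
            rw [sum_congr rfl h3, sum_const, smul_eq_mul]
        _ = ∑ x ∈ C, ∑ v, if Gr.Adj x v then r v else 0 := by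
            apply sum_congr rfl
            intro x _
            rw [← sum_filter]
            apply sum_congr _ fun _ _ => rfl
            ext v
            simp
        _ ≤ ∑ x, ∑ v, if Gr.Adj x v then r v else 0 :=
            sum_le_sum_of_subset (subset_univ C)
        _ = ∑ v, ∑ x, if Gr.Adj x v then r v else 0 := sum_comm
        _ ≤ ∑ v, N * r v := by
            apply sum_le_sum
            intro v _
            rw [← sum_filter, sum_const, smul_eq_mul]
            apply Nat.mul_le_mul_right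
            refine le_trans ?_ (hN v)
            rw [← SimpleGraph.card_neighborFinset_eq_degree]
            apply card_le_card
            intro x hx
            rw [SimpleGraph.mem_neighborFinset]
            exact (mem_filter.1 hx).2.symm
        _ = N * ∑ v, r v := by rw [mul_sum]
    have h6 : ∑ v, r v = ∑ v ∈ M, r v := by
      symm
      apply sum_subset (subset_univ M)
      intro v _ hv
      apply hr0
      by_contra h
      exact hv (mem_filter.2 ⟨mem_univ v, h⟩)
    have h7 : k * k * (∑ v, r v) ≤ k * (∑ v, r v) + k * s * b + b := by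
      rw [h6, mul_sum, mul_sum]
      calc ∑ v ∈ M, k * k * r v ≤ ∑ v ∈ M, (k * r v + k * s + bu Gr v) :=
            sum_le_sum fun v _ => h4 v
        _ = ∑ v ∈ M, k * r v + #M * (k * s) + ∑ v ∈ M, bu Gr v := by
            rw [sum_add_distrib, sum_add_distrib, sum_const, smul_eq_mul]
        _ ≤ ∑ v ∈ M, k * r v + b * (k * s) + b := by
            have h8 : ∑ v ∈ M, bu Gr v ≤ b := by
              rw [← hbu]
              exact sum_le_sum_of_subset (subset_univ M)
            have h9 : #M * (k * s) ≤ b * (k * s) := Nat.mul_le_mul_right _ hMb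
            omega
        _ = _ := by ring
    exact arith hk hs0 h5 h7

end

theorem t_GL : S_GL := by
  intro V _ _ Gr _ N hN hp hc hb
  obtain ⟨hm4, hmb⟩ := bad_card Gr hb
  have hmN : #(univ.filter fun u => bu Gr u ≠ 0) * N ≤ bt Gr * N := Nat.mul_le_mul_right _ hmb
  have hbN : 4 * N ≤ bt Gr * N := Nat.mul_le_mul_right _ (hm4.trans hmb)
  have hgoal : 3 * N * bt Gr = 3 * (bt Gr * N) := by ring
  rw [hgoal]
  by_cases hA : ∃ u, bu Gr u = 0 ∧ Gr.degree u ≤ 2
  · obtain ⟨u, hu, hdu⟩ := hA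
    have h1 := red Gr hN (univ.filter fun x => bu Gr x = 0 ∧ 2 < Gr.degree x)
      (fun x h1 h2 => mem_filter.2 ⟨mem_univ x, h1, h2⟩)
    have h2 := (pairs_le Gr (univ.filter fun x => bu Gr x = 0 ∧ 2 < Gr.degree x) u
      (fun x hx => (mem_filter.1 hx).2.1) (by
        intro x hx
        by_contra hn
        have h3 := deg_le Gr hc (mem_filter.1 hx).2.1 (fun h => hn h.symm)
        have h4 := (mem_filter.1 hx).2.2
        omega)).trans (hN u)
    omega
  push Not at hA
  set C := univ.filter fun x => bu Gr x = 0 with hC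
  have hCb : ∀ x ∈ C, bu Gr x = 0 := fun x hx => (mem_filter.1 hx).2
  have hred := red Gr hN C (fun x h1 _ => mem_filter.2 ⟨mem_univ x, h1⟩)
  by_cases hB : ∃ x1 ∈ C, ∃ x2 ∈ C, Gr.degree x1 ≠ Gr.degree x2
  · have h1 := caseB Gr hN hc C hCb hB
    omega
  push Not at hB
  -- all pairs
  have hall : #((univ : Finset (V × V)).filter fun p => Gr.Adj p.1 p.2 ∧ 2 < Gr.degree p.1 ∧
        2 < Gr.degree p.2) ≤ ∑ x ∈ C, Gr.degree x +
          ∑ x ∈ univ.filter fun u => bu Gr u ≠ 0, Gr.degree x := by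
    rw [hC, sum_filter_add_sum_filter_not]
    refine le_trans (card_le_card ?_) (fst_pairs Gr univ)
    intro p hp
    exact mem_filter.2 ⟨mem_univ _, (mem_filter.1 hp).2.1, mem_univ _⟩
  have hMs := sum_deg_le Gr hN (univ.filter fun u => bu Gr u ≠ 0)
  rcases C.eq_empty_or_nonempty with hC0 | ⟨x0, hx0⟩
  · rw [hC0, sum_empty, zero_add] at hall
    omega
  obtain ⟨k, hk⟩ : ∃ k, Gr.degree x0 = k := ⟨_, rfl⟩
  have hCk : ∀ x ∈ C, Gr.degree x = k := fun x hx => (hB x hx x0 hx0).trans hk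
  by_cases h1 : ∃ z, Gr.degree z < k
  · obtain ⟨z, hz⟩ := h1
    have h2 := (pairs_le Gr C z hCb (by
      intro x hx
      by_contra hn
      have h3 := deg_le Gr hc (hCb x hx) (fun h => hn h.symm)
      rw [hCk x hx] at h3
      omega)).trans (hN z)
    omega
  push Not at h1
  have hk3 : 3 ≤ k := by
    rw [← hk]
    exact hA x0 (hCb x0 hx0)
  have hr : ∀ v, ∃ r, Gr.degree v = k * (r + 1) := by
    intro v
    obtain ⟨j, _, hj⟩ := hp v
    obtain ⟨i, _, hi⟩ := hp x0
    rw [hk] at hi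
    have h2 : 2 ^ i ≤ 2 ^ j := by
      rw [← hi, ← hj]
      exact h1 v
    have h3 : i ≤ j := (Nat.pow_le_pow_iff_right (by norm_num)).1 h2
    refine ⟨2 ^ (j - i) - 1, ?_⟩
    have h4 : 1 ≤ 2 ^ (j - i) := Nat.one_le_two_pow
    rw [hj, hi, Nat.sub_add_cancel h4, ← pow_add, Nat.add_sub_cancel' h3]
  choose r hr using hr
  have h2 := caseC2 Gr hN hc C (bt Gr) k rfl hm4 hmb hC hk3 hCk ⟨x0, hx0⟩ r hr
  have h3 : ∑ x ∈ C, Gr.degree x = #C * k := by
    rw [sum_congr rfl hCk, sum_const, smul_eq_mul]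
  have h4 : 2 * N * bt Gr = 2 * (bt Gr * N) := by ring
  rw [h4] at h2
  omega

end Pool.Agent.Y43.ET
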